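import Pool.Agent.Helper11.VW.Reducible

/-!
# Cubic polynomials: square discriminant (module VW-N2)
-/

set_option autoImplicit false

open Polynomial

namespace Pool.Agent.Helper12.VW

open Pool.Agent.Helper11.VW

/-- VW-N2: cubic polynomials, algebra. -/
theorem cubic_square_discr (a : Fin 4 → ℤ) (h3 : a 3 ≠ 0) (hirr : Irreducible (ratPoly (n := 3) a))
    (hbad : ¬ Nonempty ((ratPoly (n := 3) a).Gal ≃* Equiv.Perm (Fin 3))) :
    ∃ y : ℤ, y ≠ 0 ∧ y ^ 2 = a 2 ^ 2 * a 1 ^ 2 - 4 * a 3 * a 1 ^ 3 - 4 * a 2 ^ 3 * a 0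
      - 27 * a 3 ^ 2 * a 0 ^ 2 + 18 * a 3 * a 2 * a 1 * a 0 := by
  classical
  set f : ℚ[X] := ratPoly (n := 3) a with hf
  let P : Cubic ℚ := ⟨a 3, a 2, a 1, a 0⟩
  have hP : P.toPoly = f := by
    rw [hf]
    unfold Cubic.toPoly ratPoly toPoly
    rw [Fin.sum_univ_four]
    simp only [P, Polynomial.map_add, Polynomial.map_mul, map_C, Polynomial.map_pow, map_X]
    simp
    ring
  have hPa : P.a ≠ 0 := by
    change ((a 3 : ℤ) : ℚ) ≠ 0
    exact_mod_cast h3
  have hdeg : f.natDegree = 3 := by rw [← hP]; exact Cubic.natDegree_of_a_ne_zero hPa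
  have hsep : f.Separable := hirr.separable
  let E := f.SplittingField
  let φ : ℚ →+* E := algebraMap ℚ E
  have hsplit : (f.map φ).Splits := SplittingField.splits f
  have hsplit' : (P.toPoly.map φ).Splits := by rw [hP]; exact hsplit
  obtain ⟨x, y, z, hxyz⟩ := (Cubic.splits_iff_roots_eq_three hPa).1 hsplit'
  have hD := Cubic.discr_eq_prod_three_roots hPa hxyz
  set δ : E := φ P.a * φ P.a * (x - y) * (x - z) * (y - z) with hδ
  have hnod : (Cubic.map φ P).roots.Nodup := by
    rw [Cubic.map_roots, hP]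
    exact nodup_roots hsep.map
  have hD0 : P.discr ≠ 0 := (Cubic.discr_ne_zero_iff_roots_nodup hPa hsplit').2 hnod
  have hdisc : P.discr = ((a 2 ^ 2 * a 1 ^ 2 - 4 * a 3 * a 1 ^ 3 - 4 * a 2 ^ 3 * a 0
      - 27 * a 3 ^ 2 * a 0 ^ 2 + 18 * a 3 * a 2 * a 1 * a 0 : ℤ) : ℚ) := by
    unfold Cubic.discr
    simp only [P]
    push_cast
    ring
  by_cases hδr : ∃ q : ℚ, φ q = δ
  · obtain ⟨q, hq⟩ := hδr
    have hq2 : q ^ 2 = P.discr := by
      apply φ.injective
      rw [map_pow, hq, hD]
    rw [hdisc] at hq2 hD0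
    have hden : q.den = 1 := by
      have h1 : (q ^ 2).den = 1 := by rw [hq2]; exact Rat.den_intCast _
      rw [Rat.den_pow] at h1
      exact (pow_eq_one_iff.1 h1).resolve_right (by norm_num)
    have hqn : (q.num : ℚ) = q := Rat.coe_int_num_of_den_eq_one hden
    refine ⟨q.num, ?_, ?_⟩
    · intro h0
      rw [h0] at hqn
      rw [← hqn] at hq2
      apply hD0
      rw [← hq2]
      simp
    · rw [← hqn] at hq2
      exact_mod_cast hq2
  · exfalso
    apply hbad
    -- degree two subfield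
    have hint : IsIntegral ℚ δ := Algebra.IsIntegral.isIntegral δ
    have hroot : aeval δ (X ^ 2 - C P.discr) = 0 := by
      rw [map_sub, map_pow, aeval_X, aeval_C, sub_eq_zero]
      exact hD.symm
    have hmd : (minpoly ℚ δ) ∣ X ^ 2 - C P.discr := minpoly.dvd _ _ hroot
    have hq0 : (X ^ 2 - C P.discr : ℚ[X]) ≠ 0 := X_pow_sub_C_ne_zero (by norm_num) _
    have hle : (minpoly ℚ δ).natDegree ≤ 2 := by
      have := natDegree_le_of_dvd hmd hq0
      rwa [natDegree_X_pow_sub_C] at this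
    have hne1 : (minpoly ℚ δ).natDegree ≠ 1 := by
      intro h1
      rw [minpoly.natDegree_eq_one_iff] at h1
      obtain ⟨q, hq⟩ := h1
      exact hδr ⟨q, hq⟩
    have hpos : 0 < (minpoly ℚ δ).natDegree := minpoly.natDegree_pos hint
    have h2 : Module.finrank ℚ (IntermediateField.adjoin ℚ {δ}) = 2 := by
      rw [IntermediateField.adjoin.finrank hint]
      omega
    have hcardE : Nat.card f.Gal = Module.finrank ℚ E := Gal.card_of_separable hsep
    have hdvd2 : 2 ∣ Nat.card f.Gal := by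
      rw [hcardE, ← h2]
      exact ⟨_, (Module.finrank_mul_finrank ℚ (IntermediateField.adjoin ℚ {δ}) E).symm⟩
    have hdvd3 : 3 ∣ Nat.card f.Gal := by
      have := Gal.prime_degree_dvd_card hirr (by rw [hdeg]; norm_num)
      rwa [hdeg] at this
    have hdvd6 : 6 ∣ Nat.card f.Gal := by
      have : (2 * 3) ∣ Nat.card f.Gal := Nat.Coprime.mul_dvd_of_dvd_of_dvd (by norm_num) hdvd2 hdvd3
      exact this
    have : Fact ((f.map (algebraMap ℚ E)).Splits) := ⟨hsplit⟩
    have hinj := Gal.galActionHom_injective f E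
    have hroots : Fintype.card (f.rootSet E) = 3 := by
      rw [card_rootSet_eq_natDegree hsep hsplit, hdeg]
    have hcardP : Nat.card (Equiv.Perm (f.rootSet E)) = 6 := by
      rw [Nat.card_eq_fintype_card, Fintype.card_perm, hroots]
      rfl
    have hfin : Finite f.Gal := inferInstance
    have hposG : 0 < Nat.card f.Gal := Nat.card_pos
    have h6 : Nat.card f.Gal = Nat.card (Equiv.Perm (f.rootSet E)) := by
      have hle6 : Nat.card f.Gal ≤ Nat.card (Equiv.Perm (f.rootSet E)) :=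
        Nat.card_le_card_of_injective _ hinj
      rw [hcardP] at hle6 ⊢
      have := Nat.le_of_dvd hposG hdvd6
      omega
    have hbij : Function.Bijective (Gal.galActionHom f E) := by
      rw [Nat.bijective_iff_injective_and_card]
      exact ⟨hinj, h6⟩
    have e1 : f.Gal ≃* Equiv.Perm (f.rootSet E) := MulEquiv.ofBijective _ hbij
    have e2 : (f.rootSet E) ≃ Fin 3 := Fintype.equivFinOfCardEq hroots
    exact ⟨e1.trans e2.permCongrHom⟩

end Pool.Agent.Helper12.VW
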