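import Pool.Agent.Helper11.VW.Reducible

/-!
# Few constant terms (module VW-E2)
-/

set_option autoImplicit false

open Polynomial

namespace Pool.Agent.Helper11.VW

open Pool.Agent.Helper12.VW

theorem exists_mult_root {p : ℕ} [Fact p.Prime] (f : (ZMod p)[X]) (hf : f ≠ 0)
    (h : (f.rootSet (AlgebraicClosure (ZMod p))).ncard < f.natDegree) :
    ∃ c : AlgebraicClosure (ZMod p), aeval c f = 0 ∧ aeval c (derivative f) = 0 := by
  classical
  set K := AlgebraicClosure (ZMod p)
  set F := f.map (algebraMap (ZMod p) K) with hF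
  have hF0 : F ≠ 0 := by
    rw [hF]
    exact (Polynomial.map_ne_zero_iff (algebraMap (ZMod p) K).injective).2 hf
  have hdeg : F.natDegree = f.natDegree := natDegree_map_eq_of_injective (algebraMap (ZMod p) K).injective f
  have hcard : F.roots.card = F.natDegree :=
    (splits_iff_card_roots.1 (IsAlgClosed.splits F))
  have hlt : F.roots.toFinset.card < F.roots.card := by
    rw [hcard, hdeg]
    unfold rootSet at h
    rw [Set.ncard_coe_finset] at h
    exact h
  have hnd : ¬ F.roots.Nodup := by
    intro hn
    rw [Multiset.toFinset_card_of_nodup hn] at hlt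
    omega
  rw [Multiset.nodup_iff_count_le_one] at hnd
  push Not at hnd
  obtain ⟨c, hc⟩ := hnd
  rw [count_roots] at hc
  obtain ⟨h1, h2⟩ := (one_lt_rootMultiplicity_iff_isRoot hF0).1 hc
  refine ⟨c, ?_, ?_⟩
  · rw [aeval_def, eval₂_eq_eval_map]
    exact h1
  · rw [aeval_def, eval₂_eq_eval_map, ← derivative_map]
    exact h2

end Pool.Agent.Helper11.VW

namespace Pool.Agent.Helper12.VW

open Pool.Agent.Helper11.VW

/-- VW-E2: for given `a_1,…,a_n`, not all of `a_n, a_{n-1}, a_{n-2}` divisible by `p`,
few residues of `a_0`. -/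
theorem few_constant_terms (n : ℕ) (hn : 3 ≤ n) (p : ℕ) (hp : n < p) (a : Fin (n + 1) → ℤ)
    (hnd : ∃ i : Fin (n + 1), n ≤ (i : ℕ) + 2 ∧ ¬ ((p : ℤ) ∣ a i)) :
    {r : ZMod p | ∃ t : ℤ, (t : ZMod p) = r ∧ InInd (Function.update a 0 t) p 2}.ncard ≤ n := by
  classical
  by_cases hpp : p.Prime
  swap
  · have : {r : ZMod p | ∃ t : ℤ, (t : ZMod p) = r ∧ InInd (Function.update a 0 t) p 2} = ∅ := by
      ext r
      rw [Set.mem_empty_iff_false, iff_false]
      rintro ⟨t, _, h, _⟩
      exact hpp h
    rw [this]
    simp
  have : Fact p.Prime := ⟨hpp⟩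
  obtain ⟨i₀, hi₀, hpi⟩ := hnd
  let K := AlgebraicClosure (ZMod p)
  let f₀ : (ZMod p)[X] := toPoly (fun i : Fin (n + 1) => if i = 0 then 0 else ((a i : ℤ) : ZMod p))
  have hi₀0 : i₀ ≠ 0 := by
    rintro rfl
    simp at hi₀
    omega
  have hco : ∀ i : Fin (n + 1), i ≠ 0 → f₀.coeff i = ((a i : ℤ) : ZMod p) := by
    intro i hi
    change (toPoly _).coeff (i : ℕ) = _
    rw [toPoly_coeff, if_neg hi]
  have hne : f₀.coeff i₀ ≠ 0 := by
    rw [hco i₀ hi₀0]
    intro h
    exact hpi ((ZMod.intCast_zmod_eq_zero_iff_dvd _ _).1 h)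
  have hi₀1 : 1 ≤ (i₀ : ℕ) := by
    by_contra hlt
    exact hi₀0 (Fin.ext (by simp; omega))
  have hdle : f₀.natDegree ≤ n := toPoly_natDegree_le _
  have hdge : n - 2 ≤ f₀.natDegree := by
    have := le_natDegree_of_ne_zero hne
    omega
  have hd1 : 1 ≤ f₀.natDegree := by
    have := le_natDegree_of_ne_zero hne
    omega
  -- the derivative
  have hder : derivative f₀ ≠ 0 := by
    intro h0
    have h1 : (derivative f₀).coeff (f₀.natDegree - 1) = 0 := by rw [h0, coeff_zero]
    rw [coeff_derivative, Nat.sub_add_cancel hd1, coeff_natDegree] at h1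
    have h2 : f₀.leadingCoeff ≠ 0 := by
      rw [leadingCoeff_ne_zero]
      rintro h3
      rw [h3] at hd1
      simp at hd1
    have h3 : ((f₀.natDegree - 1 : ℕ) : ZMod p) + 1 = ((f₀.natDegree : ℕ) : ZMod p) := by
      have : f₀.natDegree = (f₀.natDegree - 1) + 1 := by omega
      conv_rhs => rw [this]
      push_cast
      rfl
    rw [h3] at h1
    rcases mul_eq_zero.1 h1 with h4 | h4
    · exact h2 h4
    · rw [ZMod.natCast_eq_zero_iff] at h4
      have := Nat.le_of_dvd (by omega) h4
      omega
  have hkey : ∀ r : ZMod p, (∃ t : ℤ, (t : ZMod p) = r ∧ InInd (Function.update a 0 t) p 2) →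
      ∃ c ∈ ((derivative f₀).aroots K).toFinset, algebraMap (ZMod p) K r = - aeval c f₀ := by
    rintro r ⟨t, htr, _, hind⟩
    have hpoly : toPoly (fun i => ((Function.update a 0 t i : ℤ) : ZMod p)) = f₀ + C r := by
      ext j
      rcases Nat.lt_or_ge n j with hj | hj
      · rw [toPoly_coeff_ge _ hj, coeff_add, coeff_C, if_neg (by omega)]
        change 0 = (toPoly _).coeff j + 0
        rw [toPoly_coeff_ge _ hj, add_zero]
      · have h1 := toPoly_coeff (fun i => ((Function.update a 0 t i : ℤ) : ZMod p)) ⟨j, by omega⟩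
        simp only at h1
        rw [h1, coeff_add]
        have h2 : f₀.coeff j = (fun i : Fin (n + 1) => if i = 0 then 0 else ((a i : ℤ) : ZMod p)) ⟨j, by omega⟩ :=
          toPoly_coeff _ (⟨j, by omega⟩ : Fin (n + 1))
        rw [h2]
        by_cases hj0 : j = 0
        · subst hj0
          have : (⟨0, by omega⟩ : Fin (n + 1)) = 0 := rfl
          simp only [this, Function.update_self, if_true, coeff_C_zero, zero_add]
          exact htr
        · have hne' : (⟨j, by omega⟩ : Fin (n + 1)) ≠ 0 := by
            intro h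
            exact hj0 (congrArg Fin.val h)
          rw [Function.update_of_ne hne', coeff_C, if_neg hj0, add_zero]
          simp only [if_neg hne']
    have hFd : (f₀ + C r).natDegree = f₀.natDegree := natDegree_add_C
    have hF0 : f₀ + C r ≠ 0 := by
      intro h0
      rw [h0, natDegree_zero] at hFd
      omega
    have hlt : ((f₀ + C r).rootSet (AlgebraicClosure (ZMod p))).ncard < (f₀ + C r).natDegree := by
      rw [hFd]
      rcases hind with h0 | hind
      · exfalso
        have h1 := congrFun h0 i₀
        simp only [Function.update_of_ne hi₀0, Pi.zero_apply] at h1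
        exact hne ((hco i₀ hi₀0).trans h1)
      · unfold nroots at hind
        rw [hpoly] at hind
        have hlast : (fun i => ((Function.update a 0 t i : ℤ) : ZMod p)) (Fin.last n) =
            f₀.coeff n := by
          have hln : (Fin.last n) ≠ 0 := by
            intro h
            have := congrArg Fin.val h
            simp at this
            omega
          simp only
          rw [Function.update_of_ne hln]
          have := hco (Fin.last n) hln
          rw [Fin.val_last] at this
          exact this.symm
        rw [hlast] at hind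
        split_ifs at hind with h0
        · have : f₀.natDegree ≠ n := by
            intro hdn
            rw [← hdn, coeff_natDegree, leadingCoeff_eq_zero] at h0
            rw [h0] at hd1
            simp at hd1
          omega
        · have : f₀.natDegree = n := le_antisymm hdle (le_natDegree_of_ne_zero h0)
          omega
    obtain ⟨c, hc1, hc2⟩ := exists_mult_root _ hF0 hlt
    refine ⟨c, ?_, ?_⟩
    · rw [Multiset.mem_toFinset, mem_aroots]
      refine ⟨hder, ?_⟩
      rw [derivative_add, derivative_C, add_zero] at hc2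
      exact hc2
    · rw [map_add, aeval_C] at hc1
      exact eq_neg_of_add_eq_zero_right hc1
  have hsub : (algebraMap (ZMod p) K) '' {r : ZMod p | ∃ t : ℤ, (t : ZMod p) = r ∧
      InInd (Function.update a 0 t) p 2} ⊆
      ((((derivative f₀).aroots K).toFinset.image fun c => - aeval c f₀ : Finset K) : Set K) := by
    rintro _ ⟨r, hr, rfl⟩
    obtain ⟨c, hc, hrc⟩ := hkey r hr
    rw [Finset.coe_image]
    exact ⟨c, hc, hrc.symm⟩
  rw [← Set.ncard_image_of_injective _ (algebraMap (ZMod p) K).injective]
  refine (Set.ncard_le_ncard hsub (Finset.finite_toSet _)).trans ?_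
  rw [Set.ncard_coe_finset]
  refine Finset.card_image_le.trans ?_
  refine (Multiset.toFinset_card_le _).trans ?_
  refine (card_roots' _).trans ?_
  refine natDegree_map_le.trans ?_
  have := natDegree_derivative_le f₀
  omega

end Pool.Agent.Helper12.VW
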