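import Pool.Agent.Helper12.VW.Defs

/-!
# Counting reducible polynomials (module VW-N1)
-/

set_option autoImplicit false

open Polynomial

namespace Pool.Agent.Helper11.VW

open Pool.Agent.Helper12.VW

theorem toPoly_coeff {R : Type*} [Semiring R] {n : ℕ} (a : Fin (n + 1) → R) (i : Fin (n + 1)) :
    (toPoly a).coeff i = a i := by
  unfold toPoly
  rw [finsetSum_coeff, Finset.sum_eq_single i]
  · simp
  · intro j _ hj
    rw [coeff_C_mul, coeff_X_pow, if_neg, mul_zero]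
    intro h
    exact hj (Fin.ext h.symm)
  · intro h
    exact absurd (Finset.mem_univ i) h

theorem toPoly_coeff_ge {R : Type*} [Semiring R] {n : ℕ} (a : Fin (n + 1) → R) {i : ℕ}
    (hi : n < i) : (toPoly a).coeff i = 0 := by
  unfold toPoly
  rw [finsetSum_coeff]
  refine Finset.sum_eq_zero fun j _ => ?_
  rw [coeff_C_mul, coeff_X_pow, if_neg, mul_zero]
  intro h
  have := j.2
  omega

theorem toPoly_natDegree_le {R : Type*} [Semiring R] {n : ℕ} (a : Fin (n + 1) → R) :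
    (toPoly a).natDegree ≤ n :=
  natDegree_le_iff_coeff_eq_zero.2 fun _ hi => toPoly_coeff_ge a hi

theorem toPoly_natDegree {n : ℕ} (a : Fin (n + 1) → ℤ) (h : a (Fin.last n) ≠ 0) :
    (toPoly a).natDegree = n := by
  apply le_antisymm (toPoly_natDegree_le a)
  apply le_natDegree_of_ne_zero
  have := toPoly_coeff a (Fin.last n)
  rw [Fin.val_last] at this
  rw [this]
  exact h

theorem toPoly_of_coeff {n : ℕ} (g : ℤ[X]) (hg : g.natDegree ≤ n) :
    toPoly (fun i : Fin (n + 1) => g.coeff i) = g := by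
  ext i
  rcases Nat.lt_or_ge n i with h | h
  · rw [toPoly_coeff_ge _ h, coeff_eq_zero_of_natDegree_lt (by omega)]
  · exact toPoly_coeff _ (⟨i, by omega⟩ : Fin (n + 1))

theorem factor {n : ℕ} (hn : 1 ≤ n) (a : Fin (n + 1) → ℤ) (hl : a (Fin.last n) ≠ 0)
    (hr : ¬ Irreducible (ratPoly a)) :
    ∃ g h : ℤ[X], toPoly a = g * h ∧ 1 ≤ g.natDegree ∧ 1 ≤ h.natDegree := by
  set f := toPoly a with hf
  have hdeg : f.natDegree = n := toPoly_natDegree a hl
  have hf0 : f ≠ 0 := by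
    intro h0
    rw [h0, natDegree_zero] at hdeg
    omega
  have hprim := f.isPrimitive_primPart
  have hc : f.content ≠ 0 := by
    intro h0
    exact hf0 (content_eq_zero_iff.1 h0)
  have hnot : ¬ Irreducible f.primPart := by
    intro hirr
    apply hr
    have h1 := (IsPrimitive.Int.irreducible_iff_irreducible_map_cast hprim).1 hirr
    have h2 : ratPoly a = C ((f.content : ℤ) : ℚ) * f.primPart.map (Int.castRingHom ℚ) := by
      unfold ratPoly
      rw [← hf]
      conv_lhs => rw [f.eq_C_content_mul_primPart]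
      rw [Polynomial.map_mul, map_C]
      simp
    rw [h2]
    have hu : IsUnit (C ((f.content : ℤ) : ℚ)) := by
      rw [isUnit_C, isUnit_iff_ne_zero]
      exact_mod_cast hc
    exact (associated_unit_mul_left _ _ hu).symm.irreducible h1
  have hpd : f.primPart.natDegree = n := by rw [natDegree_primPart, hdeg]
  have hnu : ¬ IsUnit f.primPart := by
    intro hu
    have := natDegree_eq_zero_of_isUnit hu
    omega
  rw [irreducible_iff] at hnot
  push Not at hnot
  obtain ⟨x, y, hxy, hx, hy⟩ := hnot hnu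
  have key : ∀ z : ℤ[X], z ∣ f.primPart → ¬ IsUnit z → 1 ≤ z.natDegree := by
    intro z hz hzu
    by_contra hlt
    have h0 : z.natDegree = 0 := by omega
    rw [eq_C_of_natDegree_eq_zero h0] at hz hzu
    exact hzu (isUnit_C.2 (hprim _ hz))
  refine ⟨C f.content * x, y, ?_, ?_, key y ⟨x, by rw [hxy, mul_comm]⟩ hy⟩
  · rw [mul_assoc, ← hxy]
    exact f.eq_C_content_mul_primPart
  · rw [natDegree_C_mul hc]
    exact key x ⟨y, hxy⟩ hx

/-- The product of the heights of two factors. -/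
theorem heights {n H : ℕ} {f g h : ℤ[X]} (hfgh : f = g * h) (hf0 : f ≠ 0) (hd : f.natDegree ≤ n)
    (hH : ∀ i, |f.coeff i| ≤ H) (i k : ℕ) :
    (g.coeff i).natAbs * (h.coeff k).natAbs ≤ 2 ^ n * (n + 1) * H := by
  have hg0 : g ≠ 0 := by rintro rfl; simp at hfgh; exact hf0 hfgh
  have hh0 : h ≠ 0 := by rintro rfl; simp at hfgh; exact hf0 hfgh
  have hinj : Function.Injective (Int.castRingHom ℂ) := Int.cast_injective
  have hM : (f.map (Int.castRingHom ℂ)).mahlerMeasure =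
      (g.map (Int.castRingHom ℂ)).mahlerMeasure * (h.map (Int.castRingHom ℂ)).mahlerMeasure := by
    rw [hfgh, Polynomial.map_mul, mahlerMeasure_mul]
  have hMf : (f.map (Int.castRingHom ℂ)).mahlerMeasure ≤ (n + 1) * H := by
    refine (mahlerMeasure_le_sum_norm_coeff _).trans ?_
    rw [Polynomial.sum_def]
    have hsub : (f.map (Int.castRingHom ℂ)).support ⊆ Finset.range (n + 1) := by
      intro j hj
      rw [Finset.mem_range]
      have := le_natDegree_of_mem_supp j hj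
      have h2 : (f.map (Int.castRingHom ℂ)).natDegree ≤ f.natDegree := natDegree_map_le
      omega
    calc ∑ j ∈ (f.map (Int.castRingHom ℂ)).support, ‖(f.map (Int.castRingHom ℂ)).coeff j‖
        ≤ ∑ j ∈ Finset.range (n + 1), ‖(f.map (Int.castRingHom ℂ)).coeff j‖ :=
          Finset.sum_le_sum_of_subset_of_nonneg hsub fun _ _ _ => norm_nonneg _
      _ ≤ ∑ j ∈ Finset.range (n + 1), (H : ℝ) := by
          refine Finset.sum_le_sum fun j _ => ?_
          rw [coeff_map, eq_intCast, Complex.norm_intCast]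
          exact_mod_cast hH j
      _ = (n + 1) * H := by simp
  have hco : ∀ (p : ℤ[X]) (j : ℕ), ((p.coeff j).natAbs : ℝ) ≤
      2 ^ p.natDegree * (p.map (Int.castRingHom ℂ)).mahlerMeasure := by
    intro p j
    have h1 := norm_coeff_le_choose_mul_mahlerMeasure j (p.map (Int.castRingHom ℂ))
    rw [coeff_map, eq_intCast, Complex.norm_intCast, natDegree_map_eq_of_injective hinj] at h1
    have h2 : ((p.natDegree.choose j : ℕ) : ℝ) ≤ 2 ^ p.natDegree := by
      exact_mod_cast Nat.choose_le_two_pow _ _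
    have h3 : ((p.coeff j).natAbs : ℝ) = |((p.coeff j : ℤ) : ℝ)| := by
      rw [← Int.cast_abs, Int.abs_eq_natAbs]; simp
    rw [h3]
    exact h1.trans (mul_le_mul_of_nonneg_right h2 (mahlerMeasure_nonneg _))
  have hdeg : g.natDegree + h.natDegree ≤ n := by
    rw [hfgh, natDegree_mul hg0 hh0] at hd
    exact hd
  have hfin : ((g.coeff i).natAbs : ℝ) * (h.coeff k).natAbs ≤ 2 ^ n * (n + 1) * H := by
    calc ((g.coeff i).natAbs : ℝ) * (h.coeff k).natAbs
        ≤ (2 ^ g.natDegree * (g.map (Int.castRingHom ℂ)).mahlerMeasure) *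
          (2 ^ h.natDegree * (h.map (Int.castRingHom ℂ)).mahlerMeasure) :=
          mul_le_mul (hco g i) (hco h k) (by positivity)
            (mul_nonneg (by positivity) (mahlerMeasure_nonneg _))
      _ = 2 ^ (g.natDegree + h.natDegree) * (f.map (Int.castRingHom ℂ)).mahlerMeasure := by
          rw [hM, pow_add]; ring
      _ ≤ 2 ^ n * ((n + 1) * H) := by
          refine mul_le_mul ?_ hMf (mahlerMeasure_nonneg _) (by positivity)
          exact pow_le_pow_right₀ (by norm_num) hdeg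
      _ = 2 ^ n * (n + 1) * H := by ring
  exact_mod_cast hfin

theorem card_Box (n H : ℕ) : (Box n H).card = (2 * H + 1) ^ (n + 1) := by
  unfold Box
  rw [Fintype.card_piFinset]
  simp only [Int.card_Icc, Finset.prod_const, Finset.card_univ, Fintype.card_fin]
  congr 1
  omega

theorem mem_Box {n H : ℕ} {a : Fin (n + 1) → ℤ} : a ∈ Box n H ↔ ∀ i, (a i).natAbs ≤ H := by
  unfold Box
  rw [Fintype.mem_piFinset]
  refine forall_congr' fun i => ?_
  rw [Finset.mem_Icc]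
  omega

/-- the coefficient vector of a product -/
noncomputable def Pr (n j l : ℕ) (p : (Fin (j + 1) → ℤ) × (Fin (l + 1) → ℤ)) : Fin (n + 1) → ℤ :=
  fun i => (toPoly p.1 * toPoly p.2).coeff i

open Classical in
/-- the covering family -/
noncomputable def Fam (n c H : ℕ) : Finset (Fin (n + 1) → ℤ) :=
  (Finset.Icc 1 (n / 2)).biUnion fun j => (Finset.range (Nat.log 2 (c * H) + 1)).biUnion fun s =>
    (Box j (2 ^ (s + 1)) ×ˢ Box (n - j) (c * H / 2 ^ s)).image (Pr n j (n - j))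

theorem card_Fam (n c H : ℕ) : (Fam n c H).card ≤
    ∑ j ∈ Finset.Icc 1 (n / 2), ∑ s ∈ Finset.range (Nat.log 2 (c * H) + 1),
      (2 * 2 ^ (s + 1) + 1) ^ (j + 1) * (2 * (c * H / 2 ^ s) + 1) ^ (n - j + 1) := by
  classical
  refine Finset.card_biUnion_le.trans (Finset.sum_le_sum fun j _ => ?_)
  refine Finset.card_biUnion_le.trans (Finset.sum_le_sum fun s _ => ?_)
  refine Finset.card_image_le.trans ?_
  rw [Finset.card_product, card_Box, card_Box]

theorem mem_Fam_of {n c H : ℕ} {a : Fin (n + 1) → ℤ} (hl : a (Fin.last n) ≠ 0) {g h : ℤ[X]}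
    (hgh : toPoly a = g * h) (hg : 1 ≤ g.natDegree) (hd : g.natDegree ≤ h.natDegree)
    (hH : ∀ i k, (g.coeff i).natAbs * (h.coeff k).natAbs ≤ c * H) : a ∈ Fam n c H := by
  classical
  have hn := toPoly_natDegree a hl
  have hf0 : toPoly a ≠ 0 := by
    intro h0
    have h1 := toPoly_coeff a (Fin.last n)
    rw [h0, coeff_zero] at h1
    exact hl h1.symm
  have hg0 : g ≠ 0 := by rintro rfl; simp at hgh; exact hf0 hgh
  have hh0 : h ≠ 0 := by rintro rfl; simp at hgh; exact hf0 hgh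
  have hdeg : g.natDegree + h.natDegree = n := by
    rw [← hn, hgh, natDegree_mul hg0 hh0]
  obtain ⟨i₀, hi₀, hmax⟩ := Finset.exists_max_image (Finset.range (g.natDegree + 1))
    (fun i => (g.coeff i).natAbs) ⟨0, by simp⟩
  set G := (g.coeff i₀).natAbs with hG
  have hGall : ∀ i, (g.coeff i).natAbs ≤ G := by
    intro i
    rcases Nat.lt_or_ge g.natDegree i with h1 | h1
    · rw [coeff_eq_zero_of_natDegree_lt h1]; simp
    · exact hmax i (by rw [Finset.mem_range]; omega)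
  have hG1 : 1 ≤ G := by
    have h1 := hGall g.natDegree
    have h2 : g.coeff g.natDegree ≠ 0 := by
      rw [coeff_natDegree]; exact leadingCoeff_ne_zero.2 hg0
    omega
  have hL : 1 ≤ (h.coeff h.natDegree).natAbs := by
    have h2 : h.coeff h.natDegree ≠ 0 := by
      rw [coeff_natDegree]; exact leadingCoeff_ne_zero.2 hh0
    omega
  have hGc : G ≤ c * H := (Nat.le_mul_of_pos_right G hL).trans (hH i₀ _)
  unfold Fam
  rw [Finset.mem_biUnion]
  refine ⟨g.natDegree, by rw [Finset.mem_Icc]; omega, ?_⟩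
  rw [Finset.mem_biUnion]
  refine ⟨Nat.log 2 G, by rw [Finset.mem_range]; exact Nat.lt_succ_of_le (Nat.log_mono_right hGc), ?_⟩
  rw [Finset.mem_image]
  refine ⟨(fun i => g.coeff i, fun i => h.coeff i), ?_, ?_⟩
  · rw [Finset.mem_product, mem_Box, mem_Box]
    constructor
    · intro i
      refine (hGall i).trans (Nat.lt_pow_succ_log_self (by norm_num) G).le
    · intro i
      rw [Nat.le_div_iff_mul_le (by positivity)]
      calc (h.coeff i).natAbs * 2 ^ Nat.log 2 G ≤ (h.coeff i).natAbs * G :=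
            Nat.mul_le_mul_left _ (Nat.pow_log_le_self 2 (by omega))
        _ = G * (h.coeff i).natAbs := mul_comm _ _
        _ ≤ c * H := hH i₀ i
  · funext i
    unfold Pr
    simp only
    rw [toPoly_of_coeff g le_rfl, toPoly_of_coeff h (by omega), ← hgh]
    exact toPoly_coeff a i

theorem mem_Fam {n H : ℕ} (hn : 1 ≤ n) {a : Fin (n + 1) → ℤ} (ha : a ∈ Box n H)
    (hl : a (Fin.last n) ≠ 0) (hr : ¬ Irreducible (ratPoly a)) :
    a ∈ Fam n (2 ^ n * (n + 1)) H := by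
  obtain ⟨g, h, hgh, hg, hh⟩ := factor hn a hl hr
  have hf0 : toPoly a ≠ 0 := by
    intro h0
    have h1 := toPoly_coeff a (Fin.last n)
    rw [h0, coeff_zero] at h1
    exact hl h1.symm
  have hH : ∀ i, |(toPoly a).coeff i| ≤ H := by
    intro i
    rcases Nat.lt_or_ge n i with h1 | h1
    · rw [toPoly_coeff_ge _ h1]; simp
    · have h2 := toPoly_coeff a ⟨i, by omega⟩
      have h3 := mem_Box.1 ha ⟨i, by omega⟩
      simp only at h2
      rw [h2, Int.abs_eq_natAbs]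
      exact_mod_cast h3
  rcases le_total g.natDegree h.natDegree with hd | hd
  · exact mem_Fam_of hl hgh hg hd (heights hgh hf0 (toPoly_natDegree_le a) hH)
  · have hgh' : toPoly a = h * g := by rw [hgh, mul_comm]
    exact mem_Fam_of hl hgh' hh hd (heights hgh' hf0 (toPoly_natDegree_le a) hH)

theorem term_le {n c H j s : ℕ} (hc : 1 ≤ c) (hH : 1 ≤ H) (hj : j ≤ n)
    (hs : s < Nat.log 2 (c * H) + 1) :
    (((2 * 2 ^ (s + 1) + 1) ^ (j + 1) * (2 * (c * H / 2 ^ s) + 1) ^ (n - j + 1) : ℕ) : ℝ) ≤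
      5 ^ (n + 1) * (3 * c) ^ (n + 1) * (H : ℝ) ^ (n - j + 1) * ((2 : ℝ) ^ (s * j) / 2 ^ (s * (n - j))) := by
  have hcH : 1 ≤ c * H := Nat.mul_pos hc hH
  have hle : 2 ^ s ≤ c * H := by
    calc 2 ^ s ≤ 2 ^ (Nat.log 2 (c * H)) := Nat.pow_le_pow_right (by norm_num) (by omega)
      _ ≤ c * H := Nat.pow_log_le_self 2 (by omega)
  have h1 : ((2 * 2 ^ (s + 1) + 1 : ℕ) : ℝ) ≤ 5 * 2 ^ s := by
    have : 2 * 2 ^ (s + 1) + 1 ≤ 5 * 2 ^ s := by
      have := Nat.one_le_two_pow (n := s)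
      rw [pow_succ]
      omega
    exact_mod_cast this
  have h2 : ((2 * (c * H / 2 ^ s) + 1 : ℕ) : ℝ) ≤ 3 * (c * H / 2 ^ s) := by
    have h3 : 1 ≤ c * H / 2 ^ s := (Nat.one_le_div_iff (by positivity)).2 hle
    have h4 : ((2 * (c * H / 2 ^ s) + 1 : ℕ) : ℝ) ≤ 3 * ((c * H / 2 ^ s : ℕ) : ℝ) := by
      have : 2 * (c * H / 2 ^ s) + 1 ≤ 3 * (c * H / 2 ^ s) := by omega
      exact_mod_cast this
    refine h4.trans (mul_le_mul_of_nonneg_left ?_ (by norm_num))
    have := @Nat.cast_div_le ℝ _ _ _ (c * H) (2 ^ s)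
    push_cast at this
    exact this
  push_cast at h1 h2 ⊢
  calc (2 * 2 ^ (s + 1) + 1 : ℝ) ^ (j + 1) * (2 * ((c * H / 2 ^ s : ℕ) : ℝ) + 1) ^ (n - j + 1)
      ≤ (5 * 2 ^ s) ^ (j + 1) * (3 * (c * H / 2 ^ s)) ^ (n - j + 1) := by
        gcongr
    _ = 5 ^ (j + 1) * (3 * c) ^ (n - j + 1) * (H : ℝ) ^ (n - j + 1) *
          ((2 : ℝ) ^ (s * (j + 1)) / 2 ^ (s * (n - j + 1))) := by
        rw [mul_pow, ← pow_mul, show (3 : ℝ) * (c * H / 2 ^ s) = 3 * c * H / 2 ^ s by ring, div_pow,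
          mul_pow (3 * (c : ℝ)), ← pow_mul]
        ring
    _ = 5 ^ (j + 1) * (3 * c) ^ (n - j + 1) * (H : ℝ) ^ (n - j + 1) *
          ((2 : ℝ) ^ (s * j) / 2 ^ (s * (n - j))) := by
        congr 1
        rw [mul_add, mul_add, pow_add, pow_add, mul_one]
        field_simp
    _ ≤ 5 ^ (n + 1) * (3 * c) ^ (n + 1) * (H : ℝ) ^ (n - j + 1) *
          ((2 : ℝ) ^ (s * j) / 2 ^ (s * (n - j))) := by
        have hc' : (1 : ℝ) ≤ 3 * c := by
          have : (1 : ℝ) ≤ c := by exact_mod_cast hc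
          linarith
        have e1 : (5 : ℝ) ^ (j + 1) ≤ 5 ^ (n + 1) := pow_le_pow_right₀ (by norm_num) (by omega)
        have e2 : (3 * (c : ℝ)) ^ (n - j + 1) ≤ (3 * c) ^ (n + 1) := pow_le_pow_right₀ hc' (by omega)
        gcongr

theorem sum_le {n c H j : ℕ} (hn : 3 ≤ n) (hc : 1 ≤ c) (hH : 1 ≤ H) (hj : j ∈ Finset.Icc 1 (n / 2)) :
    (((∑ s ∈ Finset.range (Nat.log 2 (c * H) + 1),
      (2 * 2 ^ (s + 1) + 1) ^ (j + 1) * (2 * (c * H / 2 ^ s) + 1) ^ (n - j + 1) : ℕ)) : ℝ) ≤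
      5 ^ (n + 1) * (3 * c) ^ (n + 1) * (2 * (c + 1)) * (H : ℝ) ^ n := by
  rw [Finset.mem_Icc] at hj
  have hH' : (1 : ℝ) ≤ H := by exact_mod_cast hH
  have hc' : (1 : ℝ) ≤ c := by exact_mod_cast hc
  set K : ℝ := 5 ^ (n + 1) * (3 * c) ^ (n + 1) with hK
  have hK0 : 0 ≤ K := by positivity
  rw [Nat.cast_sum]
  have hstep : ∀ s ∈ Finset.range (Nat.log 2 (c * H) + 1),
      (((2 * 2 ^ (s + 1) + 1) ^ (j + 1) * (2 * (c * H / 2 ^ s) + 1) ^ (n - j + 1) : ℕ) : ℝ) ≤
      K * (H : ℝ) ^ (n - j + 1) * ((2 : ℝ) ^ (s * j) / 2 ^ (s * (n - j))) := fun s hs =>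
    term_le hc hH (by omega) (Finset.mem_range.1 hs)
  refine (Finset.sum_le_sum hstep).trans ?_
  rcases Nat.lt_or_ge j 2 with h2 | h2
  · have hj1 : j = 1 := by omega
    subst hj1
    have hq : ∀ s ∈ Finset.range (Nat.log 2 (c * H) + 1),
        K * (H : ℝ) ^ (n - 1 + 1) * ((2 : ℝ) ^ (s * 1) / 2 ^ (s * (n - 1))) ≤
        K * (H : ℝ) ^ n * (1 / 2) ^ s := by
      intro s _
      have e1 : n - 1 + 1 = n := by omega
      rw [e1]
      refine mul_le_mul_of_nonneg_left ?_ (by positivity)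
      rw [div_le_iff₀ (by positivity), one_div, inv_pow, inv_mul_eq_div, le_div_iff₀ (by positivity),
        ← pow_add]
      refine pow_le_pow_right₀ (by norm_num) ?_
      have : s * 2 ≤ s * (n - 1) := Nat.mul_le_mul_left _ (by omega)
      omega
    refine (Finset.sum_le_sum hq).trans ?_
    rw [← Finset.mul_sum]
    have hg : ∑ s ∈ Finset.range (Nat.log 2 (c * H) + 1), (1 / 2 : ℝ) ^ s ≤ 2 := by
      have := sum_geometric_two_le (Nat.log 2 (c * H) + 1)
      exact this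
    calc K * (H : ℝ) ^ n * ∑ s ∈ Finset.range (Nat.log 2 (c * H) + 1), (1 / 2 : ℝ) ^ s
        ≤ K * (H : ℝ) ^ n * 2 := mul_le_mul_of_nonneg_left hg (by positivity)
      _ ≤ K * (H : ℝ) ^ n * (2 * (c + 1)) := by
          refine mul_le_mul_of_nonneg_left ?_ (by positivity)
          linarith
      _ = K * (2 * (c + 1)) * (H : ℝ) ^ n := by ring
  · have hq : ∀ s ∈ Finset.range (Nat.log 2 (c * H) + 1),
        K * (H : ℝ) ^ (n - j + 1) * ((2 : ℝ) ^ (s * j) / 2 ^ (s * (n - j))) ≤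
        K * (H : ℝ) ^ (n - 1) := by
      intro s _
      have e1 : (H : ℝ) ^ (n - j + 1) ≤ (H : ℝ) ^ (n - 1) := pow_le_pow_right₀ hH' (by omega)
      have e2 : (2 : ℝ) ^ (s * j) / 2 ^ (s * (n - j)) ≤ 1 := by
        rw [div_le_one (by positivity)]
        exact pow_le_pow_right₀ (by norm_num) (Nat.mul_le_mul_left _ (by omega))
      calc K * (H : ℝ) ^ (n - j + 1) * ((2 : ℝ) ^ (s * j) / 2 ^ (s * (n - j)))
          ≤ K * (H : ℝ) ^ (n - j + 1) * 1 := mul_le_mul_of_nonneg_left e2 (by positivity)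
        _ ≤ K * (H : ℝ) ^ (n - 1) := by
            rw [mul_one]
            exact mul_le_mul_of_nonneg_left e1 hK0
    refine (Finset.sum_le_sum hq).trans ?_
    rw [Finset.sum_const, Finset.card_range, nsmul_eq_mul]
    have hlog : ((Nat.log 2 (c * H) + 1 : ℕ) : ℝ) ≤ 2 * (c + 1) * H := by
      have h3 : Nat.log 2 (c * H) ≤ c * H := Nat.log_le_self 2 _
      have h4 : Nat.log 2 (c * H) + 1 ≤ 2 * (c + 1) * H := by
        have : 1 ≤ H := hH
        nlinarith
      exact_mod_cast h4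
    calc ((Nat.log 2 (c * H) + 1 : ℕ) : ℝ) * (K * (H : ℝ) ^ (n - 1))
        ≤ (2 * (c + 1) * H) * (K * (H : ℝ) ^ (n - 1)) :=
          mul_le_mul_of_nonneg_right hlog (by positivity)
      _ = K * (2 * (c + 1)) * ((H : ℝ) ^ (n - 1) * H) := by ring
      _ = K * (2 * (c + 1)) * (H : ℝ) ^ n := by
          rw [← pow_succ, Nat.sub_add_cancel (by omega)]

end Pool.Agent.Helper11.VW

namespace Pool.Agent.Helper12.VW

open Pool.Agent.Helper11.VW

/-- VW-N1 -/
theorem reducible_count (n : ℕ) (hn : 3 ≤ n) : ∃ C : ℝ, 0 < C ∧ ∀ H : ℕ, 1 ≤ H →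
    ({a ∈ (Box n H : Set (Fin (n + 1) → ℤ)) | a (Fin.last n) ≠ 0 ∧
      ¬ Irreducible (ratPoly a)}.ncard : ℝ) ≤ C * (H : ℝ) ^ n := by
  classical
  set c : ℕ := 2 ^ n * (n + 1) with hc
  have hc1 : 1 ≤ c := Nat.mul_pos (by positivity) (by omega)
  refine ⟨n * (5 ^ (n + 1) * (3 * c) ^ (n + 1) * (2 * (c + 1))), by positivity, fun H hH => ?_⟩
  have hsub : {a ∈ (Box n H : Set (Fin (n + 1) → ℤ)) | a (Fin.last n) ≠ 0 ∧
      ¬ Irreducible (ratPoly a)} ⊆ (Fam n c H : Set (Fin (n + 1) → ℤ)) := by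
    rintro a ⟨ha, hl, hr⟩
    exact mem_Fam (by omega) ha hl hr
  have h1 : {a ∈ (Box n H : Set (Fin (n + 1) → ℤ)) | a (Fin.last n) ≠ 0 ∧
      ¬ Irreducible (ratPoly a)}.ncard ≤ (Fam n c H).card := by
    rw [← Set.ncard_coe_finset]
    exact Set.ncard_le_ncard hsub (Finset.finite_toSet _)
  have h2 := h1.trans (card_Fam n c H)
  have h3 : (({a ∈ (Box n H : Set (Fin (n + 1) → ℤ)) | a (Fin.last n) ≠ 0 ∧
      ¬ Irreducible (ratPoly a)}.ncard : ℕ) : ℝ) ≤
      ((∑ j ∈ Finset.Icc 1 (n / 2), ∑ s ∈ Finset.range (Nat.log 2 (c * H) + 1),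
      (2 * 2 ^ (s + 1) + 1) ^ (j + 1) * (2 * (c * H / 2 ^ s) + 1) ^ (n - j + 1) : ℕ) : ℝ) := by
    exact_mod_cast h2
  refine h3.trans ?_
  rw [Nat.cast_sum]
  refine (Finset.sum_le_sum fun j hj => sum_le hn hc1 hH hj).trans ?_
  rw [Finset.sum_const, Nat.card_Icc, nsmul_eq_mul]
  have h4 : ((n / 2 + 1 - 1 : ℕ) : ℝ) ≤ n := by
    have : n / 2 + 1 - 1 ≤ n := by omega
    exact_mod_cast this
  calc ((n / 2 + 1 - 1 : ℕ) : ℝ) * (5 ^ (n + 1) * (3 * c) ^ (n + 1) * (2 * (c + 1)) * (H : ℝ) ^ n)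
      ≤ n * (5 ^ (n + 1) * (3 * c) ^ (n + 1) * (2 * (c + 1)) * (H : ℝ) ^ n) :=
        mul_le_mul_of_nonneg_right h4 (by positivity)
    _ = n * (5 ^ (n + 1) * (3 * c) ^ (n + 1) * (2 * (c + 1))) * (H : ℝ) ^ n := by ring

end Pool.Agent.Helper12.VW
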